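import Pool.Agent.L0h7.TW.Stm

/-! # TW/TSD: the group ring of a semidirect product (for `Pool/Agent/L0h7/TW/Stm.lean`) -/

set_option autoImplicit false

noncomputable section

namespace Pool.Agent.L0h39.TW

open MonoidAlgebra

/-- the action of `F` on the group ring of `N` -/
@[reducible]
def act (R N F : Type) [Ring R] [Group N] [Group F] (φ : F →* MulAut N) :
    MulSemiringAction F (MonoidAlgebra R N) where
  smul f x := MonoidAlgebra.mapDomainRingHom R ((φ f : MulAut N) : N →* N) x
  one_smul x := by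
    change MonoidAlgebra.mapDomainRingHom R ((φ 1 : MulAut N) : N →* N) x = x
    have h : ((MonoidAlgebra.mapDomainRingHom R ((φ 1 : MulAut N) : N →* N) :
        MonoidAlgebra R N →+* MonoidAlgebra R N) : MonoidAlgebra R N →+ MonoidAlgebra R N) =
        AddMonoidHom.id _ := by
      refine MonoidAlgebra.addMonoidHom_ext fun n r => ?_
      simp
    exact DFunLike.congr_fun h x
  mul_smul f g x := by
    change MonoidAlgebra.mapDomainRingHom R ((φ (f * g) : MulAut N) : N →* N) x =
      MonoidAlgebra.mapDomainRingHom R ((φ f : MulAut N) : N →* N)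
        (MonoidAlgebra.mapDomainRingHom R ((φ g : MulAut N) : N →* N) x)
    have h : ((MonoidAlgebra.mapDomainRingHom R ((φ (f * g) : MulAut N) : N →* N) :
        MonoidAlgebra R N →+* MonoidAlgebra R N) : MonoidAlgebra R N →+ MonoidAlgebra R N) =
        ((MonoidAlgebra.mapDomainRingHom R ((φ f : MulAut N) : N →* N) :
          MonoidAlgebra R N →+* MonoidAlgebra R N) : MonoidAlgebra R N →+ MonoidAlgebra R N).comp
        ((MonoidAlgebra.mapDomainRingHom R ((φ g : MulAut N) : N →* N) :
          MonoidAlgebra R N →+* MonoidAlgebra R N) : MonoidAlgebra R N →+ MonoidAlgebra R N) := by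
      refine MonoidAlgebra.addMonoidHom_ext fun n r => ?_
      simp
    exact DFunLike.congr_fun h x
  smul_zero f := map_zero (MonoidAlgebra.mapDomainRingHom R ((φ f : MulAut N) : N →* N))
  smul_add f x y := map_add (MonoidAlgebra.mapDomainRingHom R ((φ f : MulAut N) : N →* N)) x y
  smul_one f := map_one (MonoidAlgebra.mapDomainRingHom R ((φ f : MulAut N) : N →* N))
  smul_mul f x y := map_mul (MonoidAlgebra.mapDomainRingHom R ((φ f : MulAut N) : N →* N)) x y

theorem t_TSD : Pool.Agent.L0h7.TW.S_TSD := by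
  intro R N F _ _ _ φ
  refine ⟨act R N F φ, ?_⟩
  let _i : MulSemiringAction F (MonoidAlgebra R N) := act R N F φ
  have hsm : ∀ (f : F) (n : N) (r : R), f • (MonoidAlgebra.single n r : MonoidAlgebra R N) =
      MonoidAlgebra.single (φ f n) r := by
    intro f n r
    change MonoidAlgebra.mapDomainRingHom R ((φ f : MulAut N) : N →* N) _ = _
    simp
  -- the homomorphism
  let gw : F →* MonoidAlgebra R (N ⋊[φ] F) :=
    (MonoidAlgebra.of R (N ⋊[φ] F)).comp SemidirectProduct.inr
  let fn : MonoidAlgebra R N →+* MonoidAlgebra R (N ⋊[φ] F) :=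
    MonoidAlgebra.mapDomainRingHom R (SemidirectProduct.inl : N →* N ⋊[φ] F)
  have hcomm : ∀ {x : MonoidAlgebra R N} {y : F}, fn (y • x) * gw y = gw y * fn x := by
    intro x y
    have h : ((AddMonoidHom.mulRight (gw y)).comp (fn : MonoidAlgebra R N →+ _)).comp
        (DistribSMul.toAddMonoidHom (MonoidAlgebra R N) y) =
        (AddMonoidHom.mulLeft (gw y)).comp (fn : MonoidAlgebra R N →+ _) := by
      refine MonoidAlgebra.addMonoidHom_ext fun n r => ?_
      simp only [AddMonoidHom.comp_apply, DistribSMul.toAddMonoidHom_apply, hsm,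
        AddMonoidHom.coe_mulRight, AddMonoidHom.coe_mulLeft]
      simp only [fn, gw, AddMonoidHom.coe_coe, MonoidAlgebra.mapDomainRingHom_apply,
        MonoidAlgebra.mapDomain_single, MonoidHom.comp_apply, MonoidAlgebra.of_apply,
        MonoidAlgebra.single_mul_single, mul_one, one_mul]
      congr 1
      rw [SemidirectProduct.inl_aut]
      simp
    exact DFunLike.congr_fun h x
  let Φ : SkewMonoidAlgebra (MonoidAlgebra R N) F →+* MonoidAlgebra R (N ⋊[φ] F) :=
    SkewMonoidAlgebra.liftNCRingHom fn gw hcomm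
  have hΦ : ∀ (w : F) (n : N) (r : R), Φ (SkewMonoidAlgebra.single w (MonoidAlgebra.single n r)) =
      MonoidAlgebra.single ⟨n, w⟩ r := by
    intro w n r
    change SkewMonoidAlgebra.liftNC (fn : MonoidAlgebra R N →+ _) gw _ = _
    rw [SkewMonoidAlgebra.liftNC_single]
    simp only [fn, gw, AddMonoidHom.coe_coe, MonoidAlgebra.mapDomainRingHom_apply,
        MonoidAlgebra.mapDomain_single, MonoidHom.comp_apply, MonoidAlgebra.of_apply,
        MonoidAlgebra.single_mul_single, mul_one]
    rw [SemidirectProduct.mk_eq_inl_mul_inr]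
  let Ψ : MonoidAlgebra R (N ⋊[φ] F) →+ SkewMonoidAlgebra (MonoidAlgebra R N) F :=
    (Finsupp.liftAddHom fun g : N ⋊[φ] F =>
      (SkewMonoidAlgebra.singleAddHom (k := MonoidAlgebra R N) g.right).comp
        (MonoidAlgebra.singleAddHom g.left)).comp
      (MonoidAlgebra.coeffAddEquiv.toAddMonoidHom)
  have hΨ : ∀ (g : N ⋊[φ] F) (r : R), Ψ (MonoidAlgebra.single g r) =
      SkewMonoidAlgebra.single g.right (MonoidAlgebra.single g.left r) := by
    intro g r
    simp [Ψ]
  have h1 : Ψ.comp (Φ : SkewMonoidAlgebra (MonoidAlgebra R N) F →+ _) = AddMonoidHom.id _ := by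
    refine SkewMonoidAlgebra.addHom_ext' fun w => MonoidAlgebra.addMonoidHom_ext fun n r => ?_
    change Ψ (Φ (SkewMonoidAlgebra.single w (MonoidAlgebra.single n r))) =
      SkewMonoidAlgebra.single w (MonoidAlgebra.single n r)
    rw [hΦ, hΨ]
  have h2 : (Φ : SkewMonoidAlgebra (MonoidAlgebra R N) F →+ _).comp Ψ = AddMonoidHom.id _ := by
    refine MonoidAlgebra.addMonoidHom_ext fun g r => ?_
    change Φ (Ψ (MonoidAlgebra.single g r)) = MonoidAlgebra.single g r
    rw [hΨ, hΦ]
  exact ⟨{ Φ with
    invFun := Ψ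
    left_inv := fun x => DFunLike.congr_fun h1 x
    right_inv := fun x => DFunLike.congr_fun h2 x }⟩

end Pool.Agent.L0h39.TW
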